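import Pool.Agent.Helper2.EC_C.Goals

/-!
# Packet RAM of MP_ecc237_nt, Part C: Ramanujan's product identity for Lambert series.
-/

set_option autoImplicit false

open Filter Topology Set Finset

namespace ECC.PkRAM

open EC237 ECC

/-- `u_{n+1} = q^{n+1}/(1-q^{n+1})` -/
noncomputable def U (q : ℝ) (n : ℕ) : ℝ := q ^ (n + 1) / (1 - q ^ (n + 1))

lemma den_pos {q : ℝ} (hq : |q| < 1) (n : ℕ) : 1 - |q| ≤ 1 - q ^ (n + 1) := by
  have : q ^ (n + 1) ≤ |q| := by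
    calc q ^ (n + 1) ≤ |q ^ (n + 1)| := le_abs_self _
      _ = |q| ^ (n + 1) := abs_pow _ _
      _ ≤ |q| := pow_le_of_le_one (abs_nonneg q) hq.le (Nat.succ_ne_zero n)
  linarith

lemma den_ne {q : ℝ} (hq : |q| < 1) (n : ℕ) : 1 - q ^ (n + 1) ≠ 0 := by
  have h1 := den_pos hq n
  have h2 : 0 < 1 - |q| := by linarith
  exact ne_of_gt (by linarith)

lemma abs_pow_lt {q : ℝ} (hq : |q| < 1) (n : ℕ) : ‖q ^ (n + 1)‖ < 1 := by
  rw [Real.norm_eq_abs, abs_pow]
  exact pow_lt_one₀ (abs_nonneg q) hq (Nat.succ_ne_zero n)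

lemma U_bound {q : ℝ} (hq : |q| < 1) (n : ℕ) : |U q n| ≤ (1 / (1 - |q|)) * |q| ^ n := by
  have h2 : 0 < 1 - |q| := by linarith
  have h1 := den_pos hq n
  unfold U
  rw [abs_div, abs_pow, abs_of_pos (lt_of_lt_of_le h2 h1)]
  calc |q| ^ (n + 1) / (1 - q ^ (n + 1)) ≤ |q| ^ (n + 1) / (1 - |q|) := by gcongr
    _ ≤ |q| ^ n / (1 - |q|) := by
        gcongr ?_ / _
        exact pow_le_pow_of_le_one (abs_nonneg q) hq.le (Nat.le_succ n)
    _ = (1 / (1 - |q|)) * |q| ^ n := by ring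

/-- (1) -/
lemma U_mul {q : ℝ} (hq : |q| < 1) (a b : ℕ) :
    U q a * U q b = U q (a + b + 1) * (1 + U q a + U q b) := by
  have ha := den_ne hq a
  have hb := den_ne hq b
  have hab := den_ne hq (a + b + 1)
  have e : q ^ (a + b + 1 + 1) = q ^ (a + 1) * q ^ (b + 1) := by ring
  unfold U
  rw [e] at hab ⊢
  generalize q ^ (a + 1) = x at *
  generalize q ^ (b + 1) = y at *
  field_simp
  ring

/-! ### summability -/

lemma summ1 {r : ℝ} (h0 : 0 ≤ r) (h1 : r < 1) (k : ℕ) :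
    Summable (fun n : ℕ => ((n : ℝ) + 1) ^ k * r ^ n) := by
  have hr : ‖r‖ < 1 := by rw [Real.norm_eq_abs, abs_of_nonneg h0]; exact h1
  have s1 := summable_pow_mul_geometric_of_norm_lt_one (R := ℝ) k hr
  have s2 := summable_geometric_of_lt_one h0 h1
  have s3 := (s1.add s2).mul_left (2 ^ k)
  refine Summable.of_nonneg_of_le (fun n => by positivity) (fun n => ?_) s3
  have hb : ((n : ℝ) + 1) ^ k ≤ 2 ^ k * ((n : ℝ) ^ k + 1) := by
    rcases Nat.eq_zero_or_pos n with h | h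
    · subst h
      have : (1 : ℝ) ≤ 2 ^ k := one_le_pow₀ (by norm_num)
      have h3 : (0 : ℝ) ≤ ((0 : ℕ) : ℝ) ^ k := by positivity
      simp only [Nat.cast_zero, zero_add, one_pow] at *
      nlinarith
    · have h' : (1 : ℝ) ≤ n := by exact_mod_cast h
      calc ((n : ℝ) + 1) ^ k ≤ (2 * n) ^ k := by
            gcongr
            linarith
        _ = 2 ^ k * (n : ℝ) ^ k := mul_pow _ _ _
        _ ≤ 2 ^ k * ((n : ℝ) ^ k + 1) := by
            gcongr
            linarith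
  calc ((n : ℝ) + 1) ^ k * r ^ n ≤ (2 ^ k * ((n : ℝ) ^ k + 1)) * r ^ n := by gcongr
    _ = _ := by ring

lemma summ2 {r : ℝ} (h0 : 0 ≤ r) (h1 : r < 1) (F : ℕ × ℕ → ℝ) (C : ℝ) (k : ℕ)
    (hF : ∀ a b : ℕ, |F (a, b)| ≤ C * ((a : ℝ) + b + 1) ^ k * r ^ (a + b)) : Summable F := by
  have hC : 0 ≤ C := by
    have := (abs_nonneg _).trans (hF 0 0)
    simpa using this
  have s1 := summ1 h0 h1 k
  have s2 := (s1.mul_of_nonneg s1 (fun n => by positivity) (fun n => by positivity)).mul_left C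
  refine Summable.of_norm_bounded s2 ?_
  rintro ⟨a, b⟩
  rw [Real.norm_eq_abs]
  refine (hF a b).trans ?_
  have hb : ((a : ℝ) + b + 1) ^ k ≤ ((a : ℝ) + 1) ^ k * ((b : ℝ) + 1) ^ k := by
    rw [← mul_pow]
    have : (0 : ℝ) ≤ (a : ℝ) * b := by positivity
    gcongr
    nlinarith
  calc C * ((a : ℝ) + b + 1) ^ k * r ^ (a + b)
      ≤ C * (((a : ℝ) + 1) ^ k * ((b : ℝ) + 1) ^ k) * r ^ (a + b) := by gcongr
    _ = _ := by rw [pow_add]; ring

lemma summ3 {r : ℝ} (h0 : 0 ≤ r) (h1 : r < 1) (G z : ℕ × ℕ → ℝ) (C D : ℝ) (k : ℕ)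
    (hC : 0 ≤ C)
    (hG : ∀ a b : ℕ, |G (a, b)| ≤ C * ((a : ℝ) + b + 1) ^ k)
    (hz : ∀ a b : ℕ, |z (a, b)| ≤ D * r ^ (a + b)) : Summable (fun p => G p * z p) := by
  refine summ2 h0 h1 _ (C * D) k (fun a b => ?_)
  rw [abs_mul]
  calc |G (a, b)| * |z (a, b)| ≤ (C * ((a : ℝ) + b + 1) ^ k) * (D * r ^ (a + b)) := by
        have := hG a b
        have := hz a b
        gcongr
    _ = _ := by ring

/-! ### double series -/

lemma split (F : ℕ × ℕ → ℝ) (hF : Summable F) :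
    ∑' p, F p = ∑' n, F (n, n) + ∑' p : ℕ × ℕ, F (p.1, p.1 + p.2 + 1)
      + ∑' p : ℕ × ℕ, F (p.1 + p.2 + 1, p.1) := by
  classical
  set F1 : ℕ × ℕ → ℝ := fun p => if p.1 = p.2 then F p else 0 with hF1
  set F2 : ℕ × ℕ → ℝ := fun p => if p.1 < p.2 then F p else 0 with hF2
  set F3 : ℕ × ℕ → ℝ := fun p => if p.2 < p.1 then F p else 0 with hF3
  have s1 : Summable F1 := by
    refine Summable.of_norm_bounded hF.norm (fun p => ?_)
    simp only [hF1]
    split_ifs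
    · exact le_refl _
    · simp
  have s2 : Summable F2 := by
    refine Summable.of_norm_bounded hF.norm (fun p => ?_)
    simp only [hF2]
    split_ifs
    · exact le_refl _
    · simp
  have s3 : Summable F3 := by
    refine Summable.of_norm_bounded hF.norm (fun p => ?_)
    simp only [hF3]
    split_ifs
    · exact le_refl _
    · simp
  have e : ∀ p, F p = F1 p + F2 p + F3 p := by
    intro p
    simp only [hF1, hF2, hF3]
    rcases lt_trichotomy p.1 p.2 with h | h | h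
    · rw [if_neg (by omega), if_pos h, if_neg (by omega)]; ring
    · rw [if_pos h, if_neg (by omega), if_neg (by omega)]; ring
    · rw [if_neg (by omega), if_neg (by omega), if_pos h]; ring
  have e0 : ∑' p, F p = ∑' p, F1 p + ∑' p, F2 p + ∑' p, F3 p := by
    rw [← s1.tsum_add s2, ← (s1.add s2).tsum_add s3]
    exact tsum_congr e
  rw [e0]
  congr 1
  · congr 1
    · have hinj : Function.Injective (fun n : ℕ => (n, n)) := fun a b h => by
        simpa using h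
      rw [← hinj.tsum_eq (f := F1)]
      · refine tsum_congr (fun n => ?_)
        simp [hF1]
      · intro p hp
        simp only [Function.mem_support, hF1] at hp
        have : p.1 = p.2 := by
          by_contra h
          rw [if_neg h] at hp
          exact hp rfl
        exact ⟨p.1, by ext <;> simp [this]⟩
    · have hinj : Function.Injective (fun p : ℕ × ℕ => (p.1, p.1 + p.2 + 1)) := by
        rintro ⟨a, b⟩ ⟨c, d⟩ h
        simp only [Prod.mk.injEq] at h ⊢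
        omega
      rw [← hinj.tsum_eq (f := F2)]
      · refine tsum_congr (fun n => ?_)
        simp only [hF2]
        rw [if_pos (by omega)]
      · intro p hp
        simp only [Function.mem_support, hF2] at hp
        have : p.1 < p.2 := by
          by_contra h
          rw [if_neg h] at hp
          exact hp rfl
        refine ⟨(p.1, p.2 - p.1 - 1), ?_⟩
        ext
        · rfl
        · simp only; omega
  · have hinj : Function.Injective (fun p : ℕ × ℕ => (p.1 + p.2 + 1, p.1)) := by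
      rintro ⟨a, b⟩ ⟨c, d⟩ h
      simp only [Prod.mk.injEq] at h ⊢
      omega
    rw [← hinj.tsum_eq (f := F3)]
    · refine tsum_congr (fun n => ?_)
      simp only [hF3]
      rw [if_pos (by omega)]
    · intro p hp
      simp only [Function.mem_support, hF3] at hp
      have : p.2 < p.1 := by
        by_contra h
        rw [if_neg h] at hp
        exact hp rfl
      refine ⟨(p.2, p.1 - p.2 - 1), ?_⟩
      ext
      · simp only; omega
      · rfl

lemma antid (F : ℕ × ℕ → ℝ) (hF : Summable F) :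
    ∑' p, F p = ∑' n, ∑ k ∈ range (n + 1), F (k, n - k) := by
  have h1 := (Finset.HasAntidiagonal.sigmaAntidiagonalEquivProd (A := ℕ)).tsum_eq F
  have hs : Summable (fun c : (n : ℕ) × ↥(HasAntidiagonal.antidiagonal n) =>
      F (Finset.HasAntidiagonal.sigmaAntidiagonalEquivProd c)) :=
    (Finset.HasAntidiagonal.sigmaAntidiagonalEquivProd (A := ℕ)).summable_iff.mpr hF
  rw [← h1]
  rw [hs.tsum_sigma]
  refine tsum_congr (fun n => ?_)
  rw [tsum_fintype]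
  rw [← Finset.Nat.sum_antidiagonal_eq_sum_range_succ_mk]
  exact Finset.sum_coe_sort (Finset.HasAntidiagonal.antidiagonal n) F

/-! ### one variable -/

lemma summU {q : ℝ} (hq : |q| < 1) (h : ℕ → ℝ) (C : ℝ) (k : ℕ)
    (hh : ∀ n : ℕ, |h n| ≤ C * ((n : ℝ) + 1) ^ k) : Summable (fun n => h n * U q n) := by
  have h0 := abs_nonneg q
  have hD : 0 < 1 - |q| := by linarith
  have s1 := (summ1 h0 hq k).mul_left (C * (1 / (1 - |q|)))
  refine Summable.of_norm_bounded s1 (fun n => ?_)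
  rw [Real.norm_eq_abs, abs_mul]
  have a1 := hh n
  have a2 := U_bound hq n
  have a3 : 0 ≤ C * ((n : ℝ) + 1) ^ k := (abs_nonneg _).trans a1
  calc |h n| * |U q n| ≤ (C * ((n : ℝ) + 1) ^ k) * (1 / (1 - |q|) * |q| ^ n) := by gcongr
    _ = _ := by ring

lemma summU2 {q : ℝ} (hq : |q| < 1) (h : ℕ → ℝ) (C : ℝ) (k : ℕ)
    (hh : ∀ n : ℕ, |h n| ≤ C * ((n : ℝ) + 1) ^ k) : Summable (fun n => h n * U q n ^ 2) := by
  have h0 := abs_nonneg q
  have hD : 0 < 1 - |q| := by linarith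
  have s1 := (summ1 h0 hq k).mul_left (C * (1 / (1 - |q|)) * (1 / (1 - |q|)))
  refine Summable.of_norm_bounded s1 (fun n => ?_)
  rw [Real.norm_eq_abs, abs_mul, abs_pow]
  have a1 := hh n
  have a2 := U_bound hq n
  have a3 : 0 ≤ C * ((n : ℝ) + 1) ^ k := (abs_nonneg _).trans a1
  have a4 : |q| ^ n ≤ 1 := pow_le_one₀ h0 hq.le
  have a5 : |U q n| ≤ 1 / (1 - |q|) := by
    calc |U q n| ≤ 1 / (1 - |q|) * |q| ^ n := a2
      _ ≤ 1 / (1 - |q|) * 1 := by gcongr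
      _ = _ := mul_one _
  calc |h n| * |U q n| ^ 2 = |h n| * (|U q n| * |U q n|) := by ring
    _ ≤ (C * ((n : ℝ) + 1) ^ k) * ((1 / (1 - |q|) * |q| ^ n) * (1 / (1 - |q|))) := by gcongr
    _ = _ := by ring

lemma LSsum {q : ℝ} (hq : |q| < 1) (G : ℕ × ℕ → ℝ) (C : ℝ) (k : ℕ) (hC : 0 ≤ C)
    (hG : ∀ a b : ℕ, |G (a, b)| ≤ C * ((a : ℝ) + b + 1) ^ k) :
    Summable (fun p : ℕ × ℕ => G p * q ^ ((p.1 + 1) * (p.2 + 1))) := by
  refine summ3 (abs_nonneg q) hq G _ C 1 k hC hG (fun a b => ?_)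
  rw [abs_pow, one_mul]
  exact pow_le_pow_of_le_one (abs_nonneg q) hq.le (by nlinarith)

lemma LSA {q : ℝ} (hq : |q| < 1) (h : ℕ → ℝ) (C : ℝ) (k : ℕ)
    (hh : ∀ n : ℕ, |h n| ≤ C * ((n : ℝ) + 1) ^ k) :
    LS (fun M _ => h M) q = ∑' n, h (n + 1) * U q n := by
  have hC : 0 ≤ C := by
    have := (abs_nonneg _).trans (hh 0)
    simpa using this
  unfold LS
  have hs : Summable (fun p : ℕ × ℕ => h (p.1 + 1) * q ^ ((p.1 + 1) * (p.2 + 1))) := by
    refine LSsum hq (fun p => h (p.1 + 1)) (C * 2 ^ k) k (by positivity) (fun a b => ?_)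
    refine (hh (a + 1)).trans ?_
    rw [mul_assoc, ← mul_pow]
    push_cast
    gcongr
    have : (0 : ℝ) ≤ a := by positivity
    have : (0 : ℝ) ≤ b := by positivity
    linarith
  rw [hs.tsum_prod]
  refine tsum_congr (fun a => ?_)
  simp only
  rw [tsum_mul_left]
  congr 1
  have hx := abs_pow_lt hq a
  have e : ∀ b : ℕ, q ^ ((a + 1) * (b + 1)) = q ^ (a + 1) * (q ^ (a + 1)) ^ b := by
    intro b
    rw [pow_mul, pow_succ']
  simp only [e]
  rw [tsum_mul_left, tsum_geometric_of_norm_lt_one hx]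
  unfold U
  rw [div_eq_mul_inv]

lemma LSB {q : ℝ} (hq : |q| < 1) (h : ℕ → ℝ) (C : ℝ) (k : ℕ)
    (hh : ∀ n : ℕ, |h n| ≤ C * ((n : ℝ) + 1) ^ k) :
    LS (fun M ν => (ν : ℝ) * h M) q = ∑' n, h (n + 1) * (U q n + U q n ^ 2) := by
  have hC : 0 ≤ C := by
    have := (abs_nonneg _).trans (hh 0)
    simpa using this
  unfold LS
  have hs : Summable (fun p : ℕ × ℕ => ((p.2 + 1 : ℕ) : ℝ) * h (p.1 + 1) *
      q ^ ((p.1 + 1) * (p.2 + 1))) := by
    refine LSsum hq (fun p => ((p.2 + 1 : ℕ) : ℝ) * h (p.1 + 1)) (C * 2 ^ k) (k + 1)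
      (by positivity) (fun a b => ?_)
    have ha : (0 : ℝ) ≤ a := by positivity
    have hb : (0 : ℝ) ≤ b := by positivity
    have h1 := hh (a + 1)
    push_cast at h1 ⊢
    rw [abs_mul, abs_of_nonneg (by positivity)]
    have h2 : C * ((a : ℝ) + 1 + 1) ^ k ≤ C * (2 * ((a : ℝ) + b + 1)) ^ k := by
      gcongr
      linarith
    calc ((b : ℝ) + 1) * |h (a + 1)| ≤ ((a : ℝ) + b + 1) * (C * (2 * ((a : ℝ) + b + 1)) ^ k) := by
          have := h1.trans h2
          gcongr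
          linarith
      _ = _ := by rw [mul_pow]; ring
  rw [hs.tsum_prod]
  refine tsum_congr (fun a => ?_)
  have hx := abs_pow_lt hq a
  have e : ∀ b : ℕ, ((b + 1 : ℕ) : ℝ) * h (a + 1) * q ^ ((a + 1) * (b + 1)) =
      h (a + 1) * (((b + 1 : ℕ) : ℝ) * (q ^ (a + 1)) ^ (b + 1)) := by
    intro b
    rw [pow_mul]
    ring
  simp only [e]
  rw [tsum_mul_left]
  congr 1
  have h1 := tsum_coe_mul_geometric_of_norm_lt_one hx
  have h2 := (hasSum_coe_mul_geometric_of_norm_lt_one hx).summable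
  rw [h2.tsum_eq_zero_add] at h1
  simp only [Nat.cast_zero, zero_mul, zero_add] at h1
  rw [h1]
  have hne := den_ne hq a
  unfold U
  field_simp
  ring

/-! ### the three formulas -/

section main

variable {q : ℝ} (hq : |q| < 1) (g : ℤ → ℝ) (C : ℝ) (k : ℕ) (hC : 0 ≤ C)
  (hev : ∀ n, g (-n) = g n) (hg : ∀ n, |g n| ≤ C * (|(n : ℝ)| + 1) ^ k)

include hC hg in
lemma gbd (n : ℤ) (a b : ℕ) (hn : |(n : ℝ)| ≤ a + b + 2) :
    |g n| ≤ C * 3 ^ k * ((a : ℝ) + b + 1) ^ k := by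
  refine (hg n).trans ?_
  rw [mul_assoc, ← mul_pow]
  have ha : (0 : ℝ) ≤ a := by positivity
  have hb : (0 : ℝ) ≤ b := by positivity
  gcongr
  linarith

include hq in
lemma zbd (a b c : ℕ) (hc : b ≤ c) :
    |U q a * U q c| ≤ (1 / (1 - |q|) * (1 / (1 - |q|))) * |q| ^ (a + b) := by
  have hD : 0 < 1 - |q| := by linarith
  have a1 := U_bound hq a
  have a2 := U_bound hq c
  have a3 : |q| ^ c ≤ |q| ^ b := pow_le_pow_of_le_one (abs_nonneg q) hq.le hc
  rw [abs_mul]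
  calc |U q a| * |U q c| ≤ (1 / (1 - |q|) * |q| ^ a) * (1 / (1 - |q|) * |q| ^ c) := by gcongr
    _ ≤ (1 / (1 - |q|) * |q| ^ a) * (1 / (1 - |q|) * |q| ^ b) := by gcongr
    _ = _ := by rw [pow_add]; ring

include hq hC hg in
lemma sumV : Summable (fun p : ℕ × ℕ =>
    g ((p.1 : ℤ) + p.2 + 2) * (U q p.1 * U q (p.1 + p.2 + 1))) := by
  refine summ3 (abs_nonneg q) hq (fun p => g ((p.1 : ℤ) + p.2 + 2))
    (fun p => U q p.1 * U q (p.1 + p.2 + 1)) (C * 3 ^ k) _ k (by positivity)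
    (fun a b => gbd g C k hC hg _ a b ?_) (fun a b => zbd hq a b _ (by omega))
  push_cast
  rw [abs_of_nonneg (by positivity)]

include hq hC hg in
lemma sumW : Summable (fun p : ℕ × ℕ =>
    g ((p.2 : ℤ) + 1) * (U q p.1 * U q (p.1 + p.2 + 1))) := by
  refine summ3 (abs_nonneg q) hq (fun p => g ((p.2 : ℤ) + 1))
    (fun p => U q p.1 * U q (p.1 + p.2 + 1)) (C * 3 ^ k) _ k (by positivity)
    (fun a b => gbd g C k hC hg _ a b ?_) (fun a b => zbd hq a b _ (by omega))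
  push_cast
  rw [abs_of_nonneg (by positivity)]
  have ha : (0 : ℝ) ≤ a := by positivity
  linarith

include hq hC hg in
lemma sumSm : Summable (fun p : ℕ × ℕ => g ((p.1 : ℤ) - p.2) * (U q p.1 * U q p.2)) := by
  refine summ3 (abs_nonneg q) hq (fun p => g ((p.1 : ℤ) - p.2))
    (fun p => U q p.1 * U q p.2) (C * 3 ^ k) _ k (by positivity)
    (fun a b => gbd g C k hC hg _ a b ?_) (fun a b => zbd hq a b _ le_rfl)
  push_cast
  have ha : (0 : ℝ) ≤ a := by positivity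
  have hb : (0 : ℝ) ≤ b := by positivity
  rw [abs_le]
  constructor <;> linarith

include hq hC hg in
lemma sumSp : Summable (fun p : ℕ × ℕ => g ((p.1 : ℤ) + p.2 + 2) * (U q p.1 * U q p.2)) := by
  refine summ3 (abs_nonneg q) hq (fun p => g ((p.1 : ℤ) + p.2 + 2))
    (fun p => U q p.1 * U q p.2) (C * 3 ^ k) _ k (by positivity)
    (fun a b => gbd g C k hC hg _ a b ?_) (fun a b => zbd hq a b _ le_rfl)
  push_cast
  rw [abs_of_nonneg (by positivity)]

include hq hC hg in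
lemma sumB : Summable (fun p : ℕ × ℕ => g ((p.2 : ℤ) + 1) * (U q p.1 * U q p.2)) := by
  refine summ3 (abs_nonneg q) hq (fun p => g ((p.2 : ℤ) + 1))
    (fun p => U q p.1 * U q p.2) (C * 3 ^ k) _ k (by positivity)
    (fun a b => gbd g C k hC hg _ a b ?_) (fun a b => zbd hq a b _ le_rfl)
  push_cast
  rw [abs_of_nonneg (by positivity)]
  have ha : (0 : ℝ) ≤ a := by positivity
  linarith

include hq in
lemma Ubd1 (a b : ℕ) : |U q (a + b + 1)| ≤ (1 / (1 - |q|)) * |q| ^ (a + b) := by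
  have hD : 0 < 1 - |q| := by linarith
  refine (U_bound hq _).trans ?_
  gcongr ?_ * ?_
  exact pow_le_pow_of_le_one (abs_nonneg q) hq.le (by omega)

include hq hC hg in
lemma sumT1 : Summable (fun p : ℕ × ℕ => g ((p.1 : ℤ) + p.2 + 2) * U q (p.1 + p.2 + 1)) := by
  refine summ3 (abs_nonneg q) hq (fun p => g ((p.1 : ℤ) + p.2 + 2))
    (fun p => U q (p.1 + p.2 + 1)) (C * 3 ^ k) _ k (by positivity)
    (fun a b => gbd g C k hC hg _ a b ?_) (fun a b => Ubd1 hq a b)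
  push_cast
  rw [abs_of_nonneg (by positivity)]

include hq hC hg in
lemma sumT2 : Summable (fun p : ℕ × ℕ => g ((p.1 : ℤ) + 1) * U q (p.1 + p.2 + 1)) := by
  refine summ3 (abs_nonneg q) hq (fun p => g ((p.1 : ℤ) + 1))
    (fun p => U q (p.1 + p.2 + 1)) (C * 3 ^ k) _ k (by positivity)
    (fun a b => gbd g C k hC hg _ a b ?_) (fun a b => Ubd1 hq a b)
  push_cast
  rw [abs_of_nonneg (by positivity)]
  have hb : (0 : ℝ) ≤ b := by positivity
  linarith

include hq hC hev hg in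
lemma formSm : ∑' p : ℕ × ℕ, g ((p.1 : ℤ) - p.2) * (U q p.1 * U q p.2) =
    g 0 * ∑' n, U q n ^ 2 +
      2 * ∑' p : ℕ × ℕ, g ((p.2 : ℤ) + 1) * (U q p.1 * U q (p.1 + p.2 + 1)) := by
  rw [split _ (sumSm hq g C k hC hg)]
  have e1 : ∑' n : ℕ, (fun p : ℕ × ℕ => g ((p.1 : ℤ) - p.2) * (U q p.1 * U q p.2)) (n, n) =
      g 0 * ∑' n, U q n ^ 2 := by
    rw [← tsum_mul_left]
    refine tsum_congr (fun n => ?_)
    simp only [sub_self]
    ring
  have e2 : ∑' p : ℕ × ℕ, (fun p : ℕ × ℕ => g ((p.1 : ℤ) - p.2) * (U q p.1 * U q p.2))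
      (p.1, p.1 + p.2 + 1) =
      ∑' p : ℕ × ℕ, g ((p.2 : ℤ) + 1) * (U q p.1 * U q (p.1 + p.2 + 1)) := by
    refine tsum_congr (fun p => ?_)
    simp only
    have : (p.1 : ℤ) - ((p.1 + p.2 + 1 : ℕ) : ℤ) = -((p.2 : ℤ) + 1) := by
      push_cast; ring
    rw [this, hev]
  have e3 : ∑' p : ℕ × ℕ, (fun p : ℕ × ℕ => g ((p.1 : ℤ) - p.2) * (U q p.1 * U q p.2))
      (p.1 + p.2 + 1, p.1) =
      ∑' p : ℕ × ℕ, g ((p.2 : ℤ) + 1) * (U q p.1 * U q (p.1 + p.2 + 1)) := by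
    refine tsum_congr (fun p => ?_)
    simp only
    have : ((p.1 + p.2 + 1 : ℕ) : ℤ) - (p.1 : ℤ) = (p.2 : ℤ) + 1 := by
      push_cast; ring
    rw [this]
    ring
  rw [e1, e2, e3]
  ring

lemma gnat (n : ℕ) : |(fun n : ℕ => g ((n : ℤ) + 1)) n| = |g ((n : ℤ) + 1)| := rfl

include hC hg in
lemma gb1 (n : ℕ) : |g ((n : ℤ) + 1)| ≤ C * 3 ^ k * ((n : ℝ) + 1) ^ k := by
  have := gbd g C k hC hg ((n : ℤ) + 1) n 0 (by
    push_cast
    rw [abs_of_nonneg (by positivity)]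
    linarith)
  simpa using this

include hq hC hg in
lemma formSp : ∑' p : ℕ × ℕ, g ((p.1 : ℤ) + p.2 + 2) * (U q p.1 * U q p.2) =
    ∑' n : ℕ, (n : ℝ) * g ((n : ℤ) + 1) * U q n +
      2 * ∑' p : ℕ × ℕ, g ((p.1 : ℤ) + p.2 + 2) * (U q p.1 * U q (p.1 + p.2 + 1)) := by
  have sV := sumV hq g C k hC hg
  have sT := sumT1 hq g C k hC hg
  have sV' : Summable (fun p : ℕ × ℕ =>
      g ((p.1 : ℤ) + p.2 + 2) * (U q p.2 * U q (p.1 + p.2 + 1))) := by
    have := (Equiv.prodComm ℕ ℕ).summable_iff.mpr sV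
    refine this.congr (fun p => ?_)
    simp only [Function.comp, Equiv.prodComm_apply, Prod.fst_swap, Prod.snd_swap]
    rw [add_comm (p.2 : ℤ) (p.1 : ℤ), add_comm p.2 p.1]
  have eV' : ∑' p : ℕ × ℕ, g ((p.1 : ℤ) + p.2 + 2) * (U q p.2 * U q (p.1 + p.2 + 1)) =
      ∑' p : ℕ × ℕ, g ((p.1 : ℤ) + p.2 + 2) * (U q p.1 * U q (p.1 + p.2 + 1)) := by
    rw [← (Equiv.prodComm ℕ ℕ).tsum_eq (fun p : ℕ × ℕ =>
      g ((p.1 : ℤ) + p.2 + 2) * (U q p.1 * U q (p.1 + p.2 + 1)))]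
    refine tsum_congr (fun p => ?_)
    simp only [Equiv.prodComm_apply, Prod.fst_swap, Prod.snd_swap]
    rw [add_comm (p.2 : ℤ) (p.1 : ℤ), add_comm p.2 p.1]
  have e : ∀ p : ℕ × ℕ, g ((p.1 : ℤ) + p.2 + 2) * (U q p.1 * U q p.2) =
      g ((p.1 : ℤ) + p.2 + 2) * U q (p.1 + p.2 + 1) +
      g ((p.1 : ℤ) + p.2 + 2) * (U q p.1 * U q (p.1 + p.2 + 1)) +
      g ((p.1 : ℤ) + p.2 + 2) * (U q p.2 * U q (p.1 + p.2 + 1)) := by
    intro p
    rw [U_mul hq]
    ring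
  rw [tsum_congr e, (sT.add sV).tsum_add sV', sT.tsum_add sV, eV']
  have eT : ∑' p : ℕ × ℕ, g ((p.1 : ℤ) + p.2 + 2) * U q (p.1 + p.2 + 1) =
      ∑' n : ℕ, (n : ℝ) * g ((n : ℤ) + 1) * U q n := by
    rw [antid _ sT]
    have hs : Summable (fun n : ℕ => (n : ℝ) * g ((n : ℤ) + 1) * U q n) := by
      refine summU hq _ (C * 3 ^ k) (k + 1) (fun n => ?_)
      rw [abs_mul, abs_of_nonneg (by positivity)]
      have := gb1 g C k hC hg n
      calc (n : ℝ) * |g ((n : ℤ) + 1)| ≤ ((n : ℝ) + 1) * (C * 3 ^ k * ((n : ℝ) + 1) ^ k) := by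
            gcongr
            linarith
        _ = _ := by ring
    rw [hs.tsum_eq_zero_add]
    simp only [Nat.cast_zero, zero_mul, zero_add]
    refine tsum_congr (fun n => ?_)
    rw [Finset.sum_congr rfl (g := fun _ => g ((n : ℤ) + 2) * U q (n + 1))]
    · rw [Finset.sum_const, Finset.card_range, nsmul_eq_mul]
      push_cast
      rw [add_assoc (n : ℤ) 1 1]
      norm_num
      ring
    · intro j hj
      have hj' : j ≤ n := Nat.lt_succ_iff.mp (Finset.mem_range.mp hj)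
      have e1 : (j : ℤ) + ((n - j : ℕ) : ℤ) = n := by omega
      have e2 : j + (n - j) = n := by omega
      rw [e1, e2]
  rw [eT]
  ring

include hq hC hg in
lemma formW : ∑' p : ℕ × ℕ, g ((p.2 : ℤ) + 1) * (U q p.1 * U q (p.1 + p.2 + 1)) =
    ∑' n : ℕ, g ((n : ℤ) + 1) * U q n ^ 2 +
      ∑' p : ℕ × ℕ, g ((p.1 : ℤ) + p.2 + 2) * (U q p.1 * U q (p.1 + p.2 + 1)) -
      ∑' n : ℕ, (∑ j ∈ range n, g ((j : ℤ) + 1)) * U q n := by
  have sV := sumV hq g C k hC hg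
  have sB := sumB hq g C k hC hg
  have sT := sumT2 hq g C k hC hg
  -- two auxiliary series
  have sT' : Summable (fun p : ℕ × ℕ => g ((p.2 : ℤ) + 1) * U q (p.1 + p.2 + 1)) := by
    have := (Equiv.prodComm ℕ ℕ).summable_iff.mpr sT
    refine this.congr (fun p => ?_)
    simp only [Function.comp, Equiv.prodComm_apply, Prod.fst_swap, Prod.snd_swap]
    rw [add_comm p.2 p.1]
  have eT' : ∑' p : ℕ × ℕ, g ((p.2 : ℤ) + 1) * U q (p.1 + p.2 + 1) =
      ∑' p : ℕ × ℕ, g ((p.1 : ℤ) + 1) * U q (p.1 + p.2 + 1) := by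
    rw [← (Equiv.prodComm ℕ ℕ).tsum_eq (fun p : ℕ × ℕ => g ((p.1 : ℤ) + 1) * U q (p.1 + p.2 + 1))]
    refine tsum_congr (fun p => ?_)
    simp only [Equiv.prodComm_apply, Prod.fst_swap, Prod.snd_swap]
    rw [add_comm p.2 p.1]
  have sR : Summable (fun p : ℕ × ℕ =>
      g ((p.1 : ℤ) + 1) * (U q p.1 * U q (p.1 + p.2 + 1))) := by
    refine summ3 (abs_nonneg q) hq (fun p => g ((p.1 : ℤ) + 1))
      (fun p => U q p.1 * U q (p.1 + p.2 + 1)) (C * 3 ^ k) _ k (by positivity)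
      (fun a b => gbd g C k hC hg _ a b ?_) (fun a b => zbd hq a b _ (by omega))
    push_cast
    rw [abs_of_nonneg (by positivity)]
    have hb : (0 : ℝ) ≤ b := by positivity
    linarith
  have sR' : Summable (fun p : ℕ × ℕ =>
      g ((p.2 : ℤ) + 1) * (U q p.2 * U q (p.1 + p.2 + 1))) := by
    have := (Equiv.prodComm ℕ ℕ).summable_iff.mpr sR
    refine this.congr (fun p => ?_)
    simp only [Function.comp, Equiv.prodComm_apply, Prod.fst_swap, Prod.snd_swap]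
    rw [add_comm p.2 p.1]
  have eR' : ∑' p : ℕ × ℕ, g ((p.2 : ℤ) + 1) * (U q p.2 * U q (p.1 + p.2 + 1)) =
      ∑' p : ℕ × ℕ, g ((p.1 : ℤ) + 1) * (U q p.1 * U q (p.1 + p.2 + 1)) := by
    rw [← (Equiv.prodComm ℕ ℕ).tsum_eq (fun p : ℕ × ℕ =>
      g ((p.1 : ℤ) + 1) * (U q p.1 * U q (p.1 + p.2 + 1)))]
    refine tsum_congr (fun p => ?_)
    simp only [Equiv.prodComm_apply, Prod.fst_swap, Prod.snd_swap]
    rw [add_comm p.2 p.1]
  have e : ∀ p : ℕ × ℕ, g ((p.2 : ℤ) + 1) * (U q p.1 * U q (p.1 + p.2 + 1)) =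
      g ((p.2 : ℤ) + 1) * (U q p.1 * U q p.2) - g ((p.2 : ℤ) + 1) * U q (p.1 + p.2 + 1) -
      g ((p.2 : ℤ) + 1) * (U q p.2 * U q (p.1 + p.2 + 1)) := by
    intro p
    rw [U_mul hq p.1 p.2]
    ring
  rw [tsum_congr e, (sB.sub sT').tsum_sub sR', sB.tsum_sub sT', eT', eR']
  rw [split _ sB]
  have e1 : ∑' n : ℕ, (fun p : ℕ × ℕ => g ((p.2 : ℤ) + 1) * (U q p.1 * U q p.2)) (n, n) =
      ∑' n : ℕ, g ((n : ℤ) + 1) * U q n ^ 2 := by
    refine tsum_congr (fun n => ?_)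
    simp only
    ring
  have e2 : ∑' p : ℕ × ℕ, (fun p : ℕ × ℕ => g ((p.2 : ℤ) + 1) * (U q p.1 * U q p.2))
      (p.1, p.1 + p.2 + 1) =
      ∑' p : ℕ × ℕ, g ((p.1 : ℤ) + p.2 + 2) * (U q p.1 * U q (p.1 + p.2 + 1)) := by
    refine tsum_congr (fun p => ?_)
    simp only
    have : ((p.1 + p.2 + 1 : ℕ) : ℤ) + 1 = (p.1 : ℤ) + p.2 + 2 := by
      push_cast; ring
    rw [this]
  have e3 : ∑' p : ℕ × ℕ, (fun p : ℕ × ℕ => g ((p.2 : ℤ) + 1) * (U q p.1 * U q p.2))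
      (p.1 + p.2 + 1, p.1) =
      ∑' p : ℕ × ℕ, g ((p.1 : ℤ) + 1) * (U q p.1 * U q (p.1 + p.2 + 1)) := by
    refine tsum_congr (fun p => ?_)
    simp only
    ring
  rw [e1, e2, e3]
  have eT : ∑' p : ℕ × ℕ, g ((p.1 : ℤ) + 1) * U q (p.1 + p.2 + 1) =
      ∑' n : ℕ, (∑ j ∈ range n, g ((j : ℤ) + 1)) * U q n := by
    rw [antid _ sT]
    have hs : Summable (fun n : ℕ => (∑ j ∈ range n, g ((j : ℤ) + 1)) * U q n) := by
      refine summU hq _ (C * 3 ^ k) (k + 1) (fun n => ?_)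
      refine (Finset.abs_sum_le_sum_abs _ _).trans ?_
      have hb : ∀ j ∈ range n, |g ((j : ℤ) + 1)| ≤ C * 3 ^ k * ((n : ℝ) + 1) ^ k := by
        intro j hj
        have hj' : (j : ℝ) ≤ n := by exact_mod_cast (Finset.mem_range.mp hj).le
        refine (gb1 g C k hC hg j).trans ?_
        gcongr
      refine (Finset.sum_le_sum hb).trans ?_
      rw [Finset.sum_const, Finset.card_range, nsmul_eq_mul]
      calc (n : ℝ) * (C * 3 ^ k * ((n : ℝ) + 1) ^ k)
          ≤ ((n : ℝ) + 1) * (C * 3 ^ k * ((n : ℝ) + 1) ^ k) := by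
            gcongr
            linarith
        _ = _ := by ring
    rw [hs.tsum_eq_zero_add]
    simp only [Finset.range_zero, Finset.sum_empty, zero_mul, zero_add]
    refine tsum_congr (fun n => ?_)
    rw [Finset.sum_mul]
    refine Finset.sum_congr rfl (fun j hj => ?_)
    have hj' : j ≤ n := Nat.lt_succ_iff.mp (Finset.mem_range.mp hj)
    have e2 : j + (n - j) = n := by omega
    rw [e2]
  rw [eT]
  ring

end main

/-- Packet RAM. -/
theorem ram : G_RAM := by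
  intro g m α β C k hev hg hα hβ hker q hq
  have hC : 0 ≤ C := by
    have := (abs_nonneg _).trans (hg 0)
    simpa using this
  -- bounds for functions on ℕ
  have hgN : ∀ n : ℕ, |g (n : ℤ)| ≤ C * ((n : ℝ) + 1) ^ k := by
    intro n
    have := hg (n : ℤ)
    simpa using this
  have hαN : ∀ i, ∀ n : ℕ, |α i (n : ℤ)| ≤ C * ((n : ℝ) + 1) ^ k := by
    intro i n
    have := hα i (n : ℤ)
    simpa using this
  have hβN : ∀ i, ∀ n : ℕ, |β i (n : ℤ)| ≤ C * ((n : ℝ) + 1) ^ k := by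
    intro i n
    have := hβ i (n : ℤ)
    simpa using this
  -- shift
  have shift : ∀ h : ℕ → ℝ, (∀ n : ℕ, |h n| ≤ C * ((n : ℝ) + 1) ^ k) →
      ∀ n : ℕ, |h (n + 1)| ≤ C * 2 ^ k * ((n : ℝ) + 1) ^ k := by
    intro h hh n
    refine (hh (n + 1)).trans ?_
    rw [mul_assoc, ← mul_pow]
    push_cast
    have : (0 : ℝ) ≤ n := by positivity
    gcongr
    linarith
  -- left side
  have eL : ∑ i ∈ Finset.range m, LS (fun M _ => α i (M:ℤ)) q * LS (fun M _ => β i (M:ℤ)) q =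
      ∑' p : ℕ × ℕ, (g ((p.1 : ℤ) - p.2) - g ((p.1 : ℤ) + p.2 + 2)) * (U q p.1 * U q p.2) := by
    have hterm : ∀ i, LS (fun M _ => α i (M:ℤ)) q * LS (fun M _ => β i (M:ℤ)) q =
        ∑' p : ℕ × ℕ, (α i ((p.1 + 1 : ℕ) : ℤ) * U q p.1) * (β i ((p.2 + 1 : ℕ) : ℤ) * U q p.2) := by
      intro i
      rw [LSA hq (fun M => α i (M : ℤ)) C k (hαN i), LSA hq (fun M => β i (M : ℤ)) C k (hβN i)]
      have s1 := summU hq (fun n => α i ((n + 1 : ℕ) : ℤ)) _ k
        (shift (fun n => α i (n : ℤ)) (hαN i))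
      have s2 := summU hq (fun n => β i ((n + 1 : ℕ) : ℤ)) _ k
        (shift (fun n => β i (n : ℤ)) (hβN i))
      exact tsum_mul_tsum_of_summable_norm s1.norm s2.norm
    have hsum : ∀ i ∈ Finset.range m, Summable (fun p : ℕ × ℕ =>
        (α i ((p.1 + 1 : ℕ) : ℤ) * U q p.1) * (β i ((p.2 + 1 : ℕ) : ℤ) * U q p.2)) := by
      intro i _
      have s1 := summU hq (fun n => α i ((n + 1 : ℕ) : ℤ)) _ k
        (shift (fun n => α i (n : ℤ)) (hαN i))
      have s2 := summU hq (fun n => β i ((n + 1 : ℕ) : ℤ)) _ k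
        (shift (fun n => β i (n : ℤ)) (hβN i))
      exact summable_mul_of_summable_norm s1.norm s2.norm
    rw [Finset.sum_congr rfl (fun i _ => hterm i), ← Summable.tsum_finsetSum hsum]
    refine tsum_congr (fun p => ?_)
    have hk := hker ((p.1 + 1 : ℕ) : ℤ) ((p.2 + 1 : ℕ) : ℤ) (by positivity) (by positivity)
    have e1 : ((p.1 + 1 : ℕ) : ℤ) - ((p.2 + 1 : ℕ) : ℤ) = (p.1 : ℤ) - p.2 := by push_cast; ring
    have e2 : ((p.1 + 1 : ℕ) : ℤ) + ((p.2 + 1 : ℕ) : ℤ) = (p.1 : ℤ) + p.2 + 2 := by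
      push_cast; ring
    rw [e1, e2] at hk
    rw [hk, Finset.sum_mul]
    refine Finset.sum_congr rfl (fun i _ => ?_)
    ring
  have eL2 : ∑' p : ℕ × ℕ, (g ((p.1 : ℤ) - p.2) - g ((p.1 : ℤ) + p.2 + 2)) * (U q p.1 * U q p.2)
      = ∑' p : ℕ × ℕ, g ((p.1 : ℤ) - p.2) * (U q p.1 * U q p.2) -
        ∑' p : ℕ × ℕ, g ((p.1 : ℤ) + p.2 + 2) * (U q p.1 * U q p.2) := by
    rw [← (sumSm hq g C k hC hg).tsum_sub (sumSp hq g C k hC hg)]
    refine tsum_congr (fun p => ?_)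
    ring
  rw [eL, eL2, formSm hq g C k hC hev hg, formSp hq g C k hC hg, formW hq g C k hC hg]
  -- right side
  have sU : Summable (fun n => U q n) := by
    have := summU hq (fun _ => (1 : ℝ)) 1 0 (by intro n; simp)
    simpa using this
  have sU2 : Summable (fun n => U q n ^ 2) := by
    have := summU2 hq (fun _ => (1 : ℝ)) 1 0 (by intro n; simp)
    simpa using this
  have r1 : LS (fun _ ν => (ν:ℝ)) q = ∑' n, U q n + ∑' n, U q n ^ 2 := by
    have := LSB hq (fun _ => (1 : ℝ)) 1 0 (by intro n; simp)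
    simp only [mul_one, one_mul] at this
    rw [this, sU.tsum_add sU2]
  have r2 : LS (fun _ _ => 1) q = ∑' n, U q n := by
    have := LSA hq (fun _ => (1 : ℝ)) 1 0 (by intro n; simp)
    simp only [one_mul] at this
    exact this
  have sg1 : Summable (fun n : ℕ => g ((n : ℤ) + 1) * U q n) :=
    summU hq _ (C * 3 ^ k) k (gb1 g C k hC hg)
  have sg2 : Summable (fun n : ℕ => g ((n : ℤ) + 1) * U q n ^ 2) :=
    summU2 hq _ (C * 3 ^ k) k (gb1 g C k hC hg)
  have sg3 : Summable (fun n : ℕ => (n : ℝ) * g ((n : ℤ) + 1) * U q n) := by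
    refine summU hq _ (C * 3 ^ k) (k + 1) (fun n => ?_)
    rw [abs_mul, abs_of_nonneg (by positivity)]
    have := gb1 g C k hC hg n
    calc (n : ℝ) * |g ((n : ℤ) + 1)| ≤ ((n : ℝ) + 1) * (C * 3 ^ k * ((n : ℝ) + 1) ^ k) := by
          gcongr
          linarith
      _ = _ := by ring
  have r3 : LS (fun M ν => (ν:ℝ) * g (M:ℤ)) q =
      ∑' n : ℕ, g ((n : ℤ) + 1) * U q n + ∑' n : ℕ, g ((n : ℤ) + 1) * U q n ^ 2 := by
    rw [LSB hq (fun M => g (M : ℤ)) C k hgN, ← sg1.tsum_add sg2]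
    refine tsum_congr (fun n => ?_)
    push_cast
    ring
  have r4 : LS (fun M _ => ((M:ℝ) + 1) * g (M:ℤ)) q =
      ∑' n : ℕ, (n : ℝ) * g ((n : ℤ) + 1) * U q n + 2 * ∑' n : ℕ, g ((n : ℤ) + 1) * U q n := by
    rw [LSA hq (fun M => ((M:ℝ) + 1) * g (M : ℤ)) C (k + 1) (fun n => ?_)]
    · rw [← tsum_mul_left, ← sg3.tsum_add (sg1.mul_left 2)]
      refine tsum_congr (fun n => ?_)
      push_cast
      ring
    · rw [abs_mul, abs_of_nonneg (by positivity)]
      have := hgN n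
      calc ((n : ℝ) + 1) * |g (n : ℤ)| ≤ ((n : ℝ) + 1) * (C * ((n : ℝ) + 1) ^ k) := by gcongr
        _ = _ := by ring
  have r5 : LS (fun M _ => ∑ j ∈ Finset.Ico 1 M, g (j:ℤ)) q =
      ∑' n : ℕ, (∑ j ∈ range n, g ((j : ℤ) + 1)) * U q n := by
    rw [LSA hq (fun M => ∑ j ∈ Finset.Ico 1 M, g (j:ℤ)) C (k + 1) (fun n => ?_)]
    · refine tsum_congr (fun n => ?_)
      congr 1
      rw [Finset.sum_Ico_eq_sum_range]
      refine Finset.sum_congr (by simp) (fun j _ => ?_)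
      push_cast
      rw [add_comm]
    · refine (Finset.abs_sum_le_sum_abs _ _).trans ?_
      have hb : ∀ j ∈ Finset.Ico 1 n, |g (j : ℤ)| ≤ C * ((n : ℝ) + 1) ^ k := by
        intro j hj
        have hj' : (j : ℝ) ≤ n := by exact_mod_cast (Finset.mem_Ico.mp hj).2.le
        refine (hgN j).trans ?_
        gcongr
      refine (Finset.sum_le_sum hb).trans ?_
      rw [Finset.sum_const, nsmul_eq_mul]
      have hc : ((Finset.Ico 1 n).card : ℝ) ≤ (n : ℝ) + 1 := by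
        rw [Nat.card_Ico]
        have : ((n - 1 : ℕ) : ℝ) ≤ n := by exact_mod_cast Nat.sub_le n 1
        linarith
      calc ((Finset.Ico 1 n).card : ℝ) * (C * ((n : ℝ) + 1) ^ k)
          ≤ ((n : ℝ) + 1) * (C * ((n : ℝ) + 1) ^ k) := by gcongr
        _ = _ := by ring
  rw [r1, r2, r3, r4, r5]
  ring

end ECC.PkRAM
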